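import Pool.Agent.Lib.MP_3cdc4e_an.Main

open Pool.Agent.Lib.MP_3cdc4e_an

namespace Pool.Agent.Results.MP_3cdc4e_an.Counterexample

/-- For every `n ≥ 1` and both scalar fields there is a strictly singular operator on the Schreier
space `X[S_n]` outside the norm closure of the operators factoring through `c_0`. -/
theorem result (𝕜 : Type) [RCLike 𝕜] (n : ℕ) (hn : 1 ≤ n) :
    ∃ T : SchreierSpace 𝕜 n →L[𝕜] SchreierSpace 𝕜 n,
      StrictlySingular T ∧ T ∉ closure (FactorC0 𝕜 (SchreierSpace 𝕜 n)) := by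
  obtain ⟨m, rfl⟩ := Nat.exists_eq_add_of_le' hn
  exact main 𝕜 m

end Pool.Agent.Results.MP_3cdc4e_an.Counterexample
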